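import Pool.Graph.R_pool_sql_team_seeded_3997aac3.Results.MP_39759c_lc.ForcedCycle

/-!
# Diversity-seeking jump games on trees: all numbers of types, type sizes and empty nodes

For every number `k` of types, all type sizes `s` such that one type has at least `8` and another
one at least `11` agents, and every number `e ≥ 1` of empty nodes there are a tree and an initial
assignment from which no finite sequence of improving jumps reaches an equilibrium.

The tree with 20 nodes of the earlier example (`ForcedCycle`, whose general lemmas on type patterns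
are used here) is extended by further agents, each attached to an agent of another type whose
utility is always `1`, and by further empty nodes, attached to an agent of the type of the four
unhappy agents.
-/

set_option autoImplicit false
set_option linter.unusedSectionVars false

namespace Pool.Agent.Results.MP_39759c_lc.AllTypeSizes

open ForcedCycle Sum

/-! ### Graphs given by a parent function are trees -/

section ParentTree

variable {V : Type} [Fintype V] [DecidableEq V]

theorem parent_isTree (r : V) (p : V → V) (rk : V → ℕ) (h : ∀ v, v ≠ r → rk (p v) < rk v)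
    (G : SimpleGraph V)
    (hG : ∀ u v, G.Adj u v ↔ (u ≠ r ∧ v = p u) ∨ (v ≠ r ∧ u = p v)) : G.IsTree := by
  classical
  have hconn : G.Connected := by
    have key : ∀ n : ℕ, ∀ v : V, rk v = n → G.Reachable v r := by
      intro n
      induction n using Nat.strong_induction_on with
      | _ n ih =>
        intro v hv
        by_cases h0 : v = r
        · subst h0
          exact SimpleGraph.Reachable.refl _
        · have hadj : G.Adj v (p v) := (hG _ _).2 (Or.inl ⟨h0, rfl⟩)
          exact hadj.reachable.trans (ih _ (hv ▸ h v h0) _ rfl)
    have : Nonempty V := ⟨r⟩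
    exact SimpleGraph.Connected.mk fun u v => (key _ u rfl).trans (key _ v rfl).symm
  rw [SimpleGraph.isTree_iff_connected_and_card]
  refine ⟨hconn, ?_⟩
  have himg : G.edgeSet = (fun v => s(v, p v)) '' {v | v ≠ r} := by
    ext e
    induction e using Sym2.ind with
    | _ u v =>
      rw [SimpleGraph.mem_edgeSet, hG]
      constructor
      · rintro (⟨hu, rfl⟩ | ⟨hv, rfl⟩)
        · exact ⟨u, hu, rfl⟩
        · exact ⟨v, hv, Sym2.eq_swap⟩
      · rintro ⟨w, hw, he⟩
        rcases Sym2.eq_iff.1 he with ⟨rfl, rfl⟩ | ⟨rfl, rfl⟩
        · exact Or.inl ⟨hw, rfl⟩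
        · exact Or.inr ⟨hw, rfl⟩
  have hinj : Set.InjOn (fun v => s(v, p v)) {v | v ≠ r} := by
    intro u hu v hv huv
    rcases Sym2.eq_iff.1 huv with ⟨h1, -⟩ | ⟨h1, h2⟩
    · exact h1
    · exfalso
      have a1 := h u hu
      have a2 := h v hv
      rw [h2] at a1
      rw [← h1] at a2
      omega
  have hcard : Nat.card G.edgeSet = Fintype.card V - 1 := by
    rw [himg, Nat.card_coe_set_eq, hinj.ncard_image]
    have : ({v | v ≠ r} : Set V) = {r}ᶜ := by ext v; simp
    rw [this, Set.ncard_compl, Set.ncard_singleton, Nat.card_eq_fintype_card]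
  have hpos : 0 < Fintype.card V := Fintype.card_pos_iff.2 ⟨r⟩
  rw [hcard, Nat.card_eq_fintype_card]
  omega

end ParentTree

/-! ### The extended tree -/

section Ext

variable {T X E : Type} [DecidableEq T] [Fintype X] [Fintype E] [DecidableEq X] [DecidableEq E]
  (a b : T) (tx : X → T)

/-- The parent of a node: extra agents of type `a` and extra empty nodes are attached to the node
`5` (occupied by an agent of type `b`), all other extra agents to the node `4` (occupied by an agent
of type `a`). -/
def parent : Fin 20 ⊕ (X ⊕ E) → Fin 20 ⊕ (X ⊕ E)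
  | inl v => inl (par v)
  | inr (inl x) => if tx x = a then inl 5 else inl 4
  | inr (inr _) => inl 5

/-- The extended tree. -/
def bigTree (X E : Type) (a : T) (tx : X → T) : SimpleGraph (Fin 20 ⊕ (X ⊕ E)) where
  Adj u v := (u ≠ inl 0 ∧ v = parent a tx u) ∨ (v ≠ inl 0 ∧ u = parent a tx v)
  symm := ⟨fun _ _ h => h.symm⟩
  loopless := ⟨by
    rintro (v | x | e) h
    · have : ∀ v : Fin 20, ¬ (v ≠ 0 ∧ v = par v) := by decide
      apply this v
      simpa [parent] using h
    · simp only [parent, or_self] at h
      split_ifs at h <;> simp at h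
    · simp [parent] at h⟩

instance : DecidableRel (bigTree X E a tx).Adj := fun u v =>
  inferInstanceAs (Decidable ((u ≠ inl 0 ∧ v = parent a tx u) ∨ (v ≠ inl 0 ∧ u = parent a tx v)))

theorem bigTree_isTree : (bigTree X E a tx).IsTree := by
  refine parent_isTree (inl 0) (parent a tx)
    (fun v => match v with | inl v => v.val | inr _ => 20) ?_ _ (fun u v => Iff.rfl)
  rintro (v | x | e) h
  · have := par_lt v (by simpa using h)
    simpa [parent] using this
  · simp only [parent]
    split_ifs <;> simp
  · simp [parent]

theorem adj_inl (u v : Fin 20) :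
    (bigTree X E a tx).Adj (inl u) (inl v) ↔ tree.Adj u v := by
  simp [bigTree, tree, parent]

theorem adj_x (x : X) (v : Fin 20 ⊕ (X ⊕ E)) :
    (bigTree X E a tx).Adj (inr (inl x)) v ↔ v = if tx x = a then inl 5 else inl 4 := by
  rcases v with v | y | e
  · simp [bigTree, parent]
  · simp only [bigTree, parent]
    split_ifs <;> simp
  · simp only [bigTree, parent]
    split_ifs <;> simp

theorem adj_e (e : E) (v : Fin 20 ⊕ (X ⊕ E)) :
    (bigTree X E a tx).Adj (inr (inr e)) v ↔ v = inl 5 := by
  rcases v with v | y | f
  · simp [bigTree, parent]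
  · simp only [bigTree, parent]
    split_ifs <;> simp
  · simp [bigTree, parent]

/-- The two types of the small tree. -/
def lift (t : Fin 2) : T := if t = 0 then a else b

/-- The type of the agent on a node. -/
def col : Fin 20 ⊕ (X ⊕ E) → T
  | inl v => lift a b (colour v)
  | inr (inl x) => tx x
  | inr (inr _) => b

/-- The four patterns. -/
def bigPat (X E : Type) (a b : T) (tx : X → T) (s : Fin 4) : Fin 20 ⊕ (X ⊕ E) → Option T
  | inl v => if v = hole s then none else some (lift a b (colour v))
  | inr (inl x) => some (tx x)
  | inr (inr _) => none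

theorem lift_inj (hab : a ≠ b) (s t : Fin 2) : lift a b s = lift a b t ↔ s = t := by
  fin_cases s <;> fin_cases t <;> simp [lift, hab, hab.symm]

/-- A node of the path `0 - 1 - 2 - 3` has no further neighbours in the extended tree. -/
theorem adj_path (i : Fin 20) (hi : i < 4) (v : Fin 20 ⊕ (X ⊕ E)) :
    (bigTree X E a tx).Adj (inl i) v ↔ ∃ j, tree.Adj i j ∧ v = inl j := by
  rcases v with v | x | e
  · rw [adj_inl]
    simp
  · rw [SimpleGraph.adj_comm, adj_x]
    have h5 : i ≠ 5 := by rintro rfl; exact absurd hi (by decide)
    have h4 : i ≠ 4 := by rintro rfl; exact absurd hi (by decide)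
    split_ifs <;> simp [h4, h5]
  · rw [SimpleGraph.adj_comm, adj_e]
    have h5 : i ≠ 5 := by rintro rfl; exact absurd hi (by decide)
    simp [h5]

theorem occ_path (c : Fin 20 ⊕ (X ⊕ E) → Option T) (d : Fin 20 → Option (Fin 2))
    (hcd : ∀ v, c (inl v) = (d v).map (lift a b)) (i : Fin 20) (hi : i < 4) :
    occ (bigTree X E a tx) c (inl i) = occ tree d i := by
  unfold occ
  rw [← Finset.card_map (⟨inl, Sum.inl_injective⟩ : Fin 20 ↪ Fin 20 ⊕ (X ⊕ E))]
  congr 1
  ext v
  simp only [Finset.mem_filter, Finset.mem_univ, true_and, Finset.mem_map,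
    Function.Embedding.coeFn_mk, adj_path a tx i hi]
  constructor
  · rintro ⟨⟨j, hj, rfl⟩, hc⟩
    rw [hcd] at hc
    exact ⟨j, ⟨hj, by simpa using hc⟩, rfl⟩
  · rintro ⟨j, ⟨hj, hd⟩, rfl⟩
    exact ⟨⟨j, hj, rfl⟩, by rw [hcd]; simpa using hd⟩

theorem dif_path (hab : a ≠ b) (c : Fin 20 ⊕ (X ⊕ E) → Option T) (d : Fin 20 → Option (Fin 2))
    (hcd : ∀ v, c (inl v) = (d v).map (lift a b)) (i : Fin 20) (hi : i < 4) (t : Fin 2) :
    dif (bigTree X E a tx) c (inl i) (lift a b t) = dif tree d i t := by
  unfold dif
  rw [← Finset.card_map (⟨inl, Sum.inl_injective⟩ : Fin 20 ↪ Fin 20 ⊕ (X ⊕ E))]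
  congr 1
  ext v
  simp only [Finset.mem_filter, Finset.mem_univ, true_and, Finset.mem_map,
    Function.Embedding.coeFn_mk, adj_path a tx i hi]
  have key : ∀ j, (c (inl j) ≠ none ∧ c (inl j) ≠ some (lift a b t)) ↔
      (d j ≠ none ∧ d j ≠ some t) := by
    intro j
    rw [hcd]
    cases hdj : d j with
    | none => simp
    | some u => simp [lift_inj a b hab]
  constructor
  · rintro ⟨⟨j, hj, rfl⟩, hc⟩
    exact ⟨j, ⟨hj, (key j).1 hc⟩, rfl⟩
  · rintro ⟨j, ⟨hj, hd⟩, rfl⟩
    exact ⟨⟨j, hj, rfl⟩, (key j).2 hd⟩

theorem bigPat_inl (s : Fin 4) (v : Fin 20) :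
    bigPat X E a b tx s (inl v) = (pat s v).map (lift a b) := by
  simp only [bigPat, pat]
  split_ifs <;> simp

theorem five_ne : ∀ s : Fin 4, (5 : Fin 20) ≠ hole s := by decide
theorem four_ne : ∀ s : Fin 4, (4 : Fin 20) ≠ hole s := by decide
theorem hole_lt : ∀ s : Fin 4, hole s < 4 := by decide
theorem path_hole : ∀ i : Fin 20, i < 4 → ∃ s : Fin 4, hole s = i := by decide
theorem colour_path : ∀ i : Fin 20, i < 4 → colour i = 1 := by decide

/-- Comparison for nodes of the path. -/
theorem better_path (hab : a ≠ b) (s : Fin 4) (v : Fin 20) (hv : v < 4) :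
    Better (bigTree X E a tx) (bigPat X E a b tx s) (inl v) (inl (hole s)) (lift a b 1) ↔
      Better tree (pat s) v (hole s) 1 := by
  have h1 : ∀ u, move (bigPat X E a b tx s) (inl v) (inl (hole s)) (lift a b 1) (inl u) =
      (move (pat s) v (hole s) 1 u).map (lift a b) := by
    intro u
    unfold ForcedCycle.move
    by_cases hu : u = hole s
    · simp [hu]
    · by_cases hu' : u = v
      · simp [hu', hu' ▸ hu]
      · simp [hu, hu', bigPat_inl]
  unfold Better
  rw [occ_path a b tx _ _ (bigPat_inl a b tx s) v hv, dif_path a b tx hab _ _ (bigPat_inl a b tx s) v hv,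
    occ_path a b tx _ _ h1 _ (hole_lt s), dif_path a b tx hab _ _ h1 _ (hole_lt s)]

theorem dif_le_occ {V : Type} [Fintype V] [DecidableEq V] (G : SimpleGraph V) [DecidableRel G.Adj]
    (c : V → Option T) (v : V) (t : T) : dif G c v t ≤ occ G c v := by
  unfold dif occ
  apply Finset.card_le_card
  intro w
  simp only [Finset.mem_filter, Finset.mem_univ, true_and]
  exact fun h => ⟨h.1, h.2.1⟩

/-- An agent all of whose neighbours have another type does not move. -/
theorem not_better_of_happy {V : Type} [Fintype V] [DecidableEq V] (G : SimpleGraph V)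
    [DecidableRel G.Adj] (c : V → Option T) (v w : V) (t : T)
    (h1 : ∀ u, G.Adj v u → c u ≠ some t) (h2 : ∃ u, G.Adj v u ∧ c u ≠ none) :
    ¬ Better G c v w t := by
  have heq : dif G c v t = occ G c v := by
    unfold dif occ
    congr 1
    ext u
    simp only [Finset.mem_filter, Finset.mem_univ, true_and]
    exact ⟨fun h => ⟨h.1, h.2.1⟩, fun h => ⟨h.1, h.2, h1 u h.1⟩⟩
  have hpos : 0 < occ G c v := by
    obtain ⟨u, hu, hc⟩ := h2
    exact Finset.card_pos.2 ⟨u, by simp [hu, hc]⟩
  have hle := dif_le_occ G (move c v w t) w t
  rintro (h | ⟨h, -⟩)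
  · rw [heq] at h
    nlinarith
  · omega

/-- In the pattern `s` the only improving jump is that of the agent on `hole (s + 1)` to the node
`hole s`. -/
theorem forced_big (hab : a ≠ b) (s : Fin 4) (v w : Fin 20 ⊕ (X ⊕ E)) (t : T)
    (hv : bigPat X E a b tx s v = some t) (hw : bigPat X E a b tx s w = none) :
    Better (bigTree X E a tx) (bigPat X E a b tx s) v w t ↔
      v = inl (hole (s + 1)) ∧ w = inl (hole s) := by
  have hbase : ∀ i j : Fin 20, 4 ≤ i → tree.Adj i j → colour i ≠ colour j := by decide
  have hbase2 : ∀ i : Fin 20, 4 ≤ i → ∃ j : Fin 20, 4 ≤ j ∧ tree.Adj i j := by decide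
  have hocc : ∀ j : Fin 20, 4 ≤ j → bigPat X E a b tx s (inl j) ≠ none := by
    intro j hj
    have : j ≠ hole s := by
      rintro rfl
      exact absurd (hole_lt s) (not_lt.2 hj)
    simp [bigPat, this]
  rcases v with i | x | e
  · by_cases hi : i < 4
    · have hih : i ≠ hole s := by
        rintro rfl
        simp [bigPat] at hv
      have ht : t = lift a b 1 := by
        simp only [bigPat, if_neg hih, colour_path i hi] at hv
        exact (Option.some_injective _ hv).symm
      rw [ht]
      rcases w with j | y | f
      · have hj : j = hole s := by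
          by_contra hne
          simp [bigPat, hne] at hw
        subst hj
        rw [better_path a b tx hab s i hi]
        have := forced s i hih
        rw [colour_path i hi] at this
        rw [this]
        simp
      · simp [bigPat] at hw
      · have : ¬ Better (bigTree X E a tx) (bigPat X E a b tx s) (inl i) (inr (inr f))
            (lift a b 1) := by
          have h0 : dif (bigTree X E a tx)
              (move (bigPat X E a b tx s) (inl i) (inr (inr f)) (lift a b 1)) (inr (inr f))
              (lift a b 1) = 0 := by
            unfold dif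
            rw [Finset.card_eq_zero, Finset.filter_eq_empty_iff]
            intro u _ hu
            rw [adj_e] at hu
            obtain ⟨rfl, h1, h2⟩ := hu
            apply h2
            unfold ForcedCycle.move
            have h5 : (5 : Fin 20) ≠ hole s := five_ne s
            have h5i : (5 : Fin 20) ≠ i := by
              rintro rfl
              exact absurd hi (by decide)
            have hc5 : colour 5 = 1 := by decide
            simp [bigPat, h5, h5i, hc5]
          rintro (h | ⟨-, h⟩)
          · rw [h0] at h
            simp at h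
          · rw [h0] at h
            simp at h
        constructor
        · intro h
          exact absurd h this
        · rintro ⟨-, h⟩
          simp at h
    · push Not at hi
      have hih : i ≠ hole s := by
        rintro rfl
        exact absurd (hole_lt s) (not_lt.2 hi)
      have ht : t = lift a b (colour i) := by
        simp only [bigPat, if_neg hih] at hv
        exact (Option.some_injective _ hv).symm
      rw [ht]
      constructor
      · intro h
        exfalso
        refine not_better_of_happy _ _ _ _ _ ?_ ?_ h
        · rintro (j | y | f) hadj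
          · rw [adj_inl] at hadj
            have := hbase i j hi hadj
            rw [bigPat_inl]
            unfold pat
            split_ifs
            · simp
            · simp only [Option.map_some, ne_eq, Option.some.injEq, lift_inj a b hab]
              exact fun h => this h.symm
          · rw [SimpleGraph.adj_comm, adj_x] at hadj
            have hc5 : colour 5 = 1 := by decide
            have hc4 : colour 4 = 0 := by decide
            simp only [bigPat, ne_eq, Option.some.injEq]
            split_ifs at hadj with hy
            · obtain rfl := Sum.inl_injective hadj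
              rw [hy, hc5]
              simpa [lift] using hab
            · obtain rfl := Sum.inl_injective hadj
              rw [hc4]
              simpa [lift] using hy
          · simp [bigPat]
        · obtain ⟨j, hj, hadj⟩ := hbase2 i hi
          exact ⟨inl j, (adj_inl a tx i j).2 hadj, hocc j hj⟩
      · rintro ⟨h, -⟩
        have h1 := Sum.inl_injective h
        exact absurd (hole_lt (s + 1)) (by rw [← h1]; exact not_lt.2 hi)
  · have ht : t = tx x := by
      simp only [bigPat] at hv
      exact (Option.some_injective _ hv).symm
    rw [ht]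
    constructor
    · intro h
      exfalso
      refine not_better_of_happy _ _ _ _ _ ?_ ?_ h
      · intro u hu
        rw [adj_x] at hu
        subst hu
        have hc5 : colour 5 = 1 := by decide
        have hc4 : colour 4 = 0 := by decide
        have h5 : (5 : Fin 20) ≠ hole s := five_ne s
        have h4 : (4 : Fin 20) ≠ hole s := four_ne s
        split_ifs with hx
        · simp only [bigPat, if_neg h5, hc5, ne_eq, Option.some.injEq, hx]
          simpa [lift] using hab.symm
        · simp only [bigPat, if_neg h4, hc4, ne_eq, Option.some.injEq]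
          simpa [lift] using fun h => hx h.symm
      · refine ⟨if tx x = a then inl 5 else inl 4, (adj_x a tx x _).2 rfl, ?_⟩
        split_ifs
        · exact hocc 5 (by decide)
        · exact hocc 4 (by decide)
    · rintro ⟨h, -⟩
      simp at h
  · simp [bigPat] at hv

theorem bigPat_move (s : Fin 4) :
    move (bigPat X E a b tx s) (inl (hole (s + 1))) (inl (hole s)) (lift a b 1) =
      bigPat X E a b tx (s + 1) := by
  have hne : hole s ≠ hole (s + 1) := by revert s; decide
  have hc : colour (hole s) = 1 := colour_path _ (hole_lt s)
  funext x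
  unfold ForcedCycle.move
  rcases x with v | y | e
  · by_cases h1 : v = hole s
    · subst h1
      simp [bigPat, hne, hc]
    · by_cases h2 : v = hole (s + 1)
      · simp [bigPat, h2, hne.symm]
      · simp [bigPat, h1, h2]
  · simp [bigPat]
  · simp [bigPat]

end Ext

/-! ### The dynamics -/

section Dynamics

variable {T X E : Type} [DecidableEq T] [Fintype X] [Fintype E] [DecidableEq X] [DecidableEq E]
  (a b : T) (tx : X → T)

/-- The types of the agents. -/
def tyA : Fin 19 ⊕ X → T
  | inl i => lift a b (ty i)
  | inr x => tx x

/-- The initial assignment. -/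
def start (X E : Type) : Fin 19 ⊕ X ↪ Fin 20 ⊕ (X ⊕ E) where
  toFun
    | inl i => inl i.succ
    | inr x => inr (inl x)
  inj' := by
    rintro (i | x) (j | y) h
    · simpa using h
    · simp at h
    · simp at h
    · simpa using h

theorem start_realises : Realises (tyA a b tx) (start X E) (bigPat X E a b tx 0) := by
  intro v t
  rcases v with v | x | e
  · induction v using Fin.cases with
    | zero =>
      constructor
      · intro h
        simp [bigPat, hole] at h
      · rintro ⟨i | x, hi, -⟩
        · exact absurd (Sum.inl_injective hi) (Fin.succ_ne_zero i)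
        · simp [start] at hi
    | succ i =>
      have hne : i.succ ≠ hole 0 := Fin.succ_ne_zero i
      simp only [bigPat, if_neg hne, Option.some.injEq]
      constructor
      · rintro rfl
        exact ⟨inl i, rfl, rfl⟩
      · rintro ⟨j | x, hj, rfl⟩
        · have : j = i := Fin.succ_injective _ (Sum.inl_injective hj)
          rw [this]
          rfl
        · simp [start] at hj
  · simp only [bigPat, Option.some.injEq]
    constructor
    · rintro rfl
      exact ⟨inr x, rfl, rfl⟩
    · rintro ⟨j | y, hj, rfl⟩
      · simp [start] at hj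
      · have h' : (inr (inl y) : Fin 20 ⊕ (X ⊕ E)) = inr (inl x) := hj
        have : y = x := by simpa using h'
        rw [this]
        rfl
  · constructor
    · intro h
      simp [bigPat] at h
    · rintro ⟨j | y, hj, -⟩
      · simp [start] at hj
      · have h' : (inr (inl y) : Fin 20 ⊕ (X ⊕ E)) = inr (inr e) := hj
        simp at h'

theorem hole_ne : ∀ s : Fin 4, hole (s + 1) ≠ hole s := by decide

theorem step_big (hab : a ≠ b) {σ τ : Fin 19 ⊕ X ↪ Fin 20 ⊕ (X ⊕ E)} {s : Fin 4}
    (h : Realises (tyA a b tx) σ (bigPat X E a b tx s))
    (hj : ImprovingJump (bigTree X E a tx) (tyA a b tx) σ τ) :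
    Realises (tyA a b tx) τ (bigPat X E a b tx (s + 1)) := by
  obtain ⟨i, h1, h2, h3⟩ := hj
  rw [better_iff _ h h1 h2] at h3
  have hτ : bigPat X E a b tx s (τ i) = none := by
    by_contra hne
    obtain ⟨j, hj⟩ := h.exists hne
    exact h1 j hj
  have hσ : bigPat X E a b tx s (σ i) = some (tyA a b tx i) := h.some i
  obtain ⟨e1, e2⟩ := (forced_big a b tx hab s _ _ _ hσ hτ).1 h3
  have ht : tyA a b tx i = lift a b 1 := by
    rw [e1] at hσ
    have hne : hole (s + 1) ≠ hole s := hole_ne s
    simp only [bigPat, if_neg hne, colour_path _ (hole_lt _)] at hσ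
    exact (Option.some_injective _ hσ).symm
  have h4 := h.move h1 h2
  rwa [e1, e2, ht, bigPat_move] at h4

theorem not_eq_big (hab : a ≠ b) {σ : Fin 19 ⊕ X ↪ Fin 20 ⊕ (X ⊕ E)} {s : Fin 4}
    (h : Realises (tyA a b tx) σ (bigPat X E a b tx s)) :
    ¬ IsEquilibrium (bigTree X E a tx) (tyA a b tx) σ := by
  classical
  intro he
  have hv : bigPat X E a b tx s (inl (hole (s + 1))) = some (lift a b 1) := by
    simp only [bigPat, if_neg (hole_ne s), colour_path _ (hole_lt _)]
  obtain ⟨i, hi, hc⟩ := (h _ _).1 hv
  have hempty : ∀ j, σ j ≠ inl (hole s) := by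
    intro j hj
    have := h.some j
    rw [hj] at this
    simp [bigPat] at this
  have hinj : Function.Injective (Function.update σ i (inl (hole s))) := by
    intro u v huv
    by_cases hu : u = i <;> by_cases hv : v = i
    · rw [hu, hv]
    · subst hu
      rw [Function.update_self, Function.update_of_ne hv] at huv
      exact absurd huv.symm (hempty v)
    · subst hv
      rw [Function.update_self, Function.update_of_ne hu] at huv
      exact absurd huv (hempty u)
    · rw [Function.update_of_ne hu, Function.update_of_ne hv] at huv
      exact σ.injective huv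
  let τ : Fin 19 ⊕ X ↪ Fin 20 ⊕ (X ⊕ E) := ⟨Function.update σ i (inl (hole s)), hinj⟩
  have hτi : τ i = inl (hole s) := Function.update_self _ _ _
  have h1 : ∀ j, σ j ≠ τ i := by
    rw [hτi]
    exact hempty
  have h2 : ∀ j, j ≠ i → τ j = σ j := fun j hj => Function.update_of_ne hj _ _
  refine he τ ⟨i, h1, h2, ?_⟩
  rw [better_iff _ h h1 h2, hτi, hc, hi]
  refine (forced_big a b tx hab s _ _ _ hv ?_).2 ⟨rfl, rfl⟩
  simp [bigPat]

end Dynamics

/-- **Answer to Q1 (no), for all numbers of types, all type sizes with two large types and all
numbers of empty nodes.** Let `k` be a number of types and `s c` the number of agents of type `c`,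
and suppose that some type has at least `8` agents and another type at least `11`. Then for every
`e ≥ 1` there are a tree `G` with exactly `e` more nodes than agents, and an initial assignment `σ`
such that no assignment reachable from `σ` by improving jumps is an equilibrium. -/
theorem result (k : ℕ) (s : Fin k → ℕ) (a b : Fin k) (hab : a ≠ b) (ha : 8 ≤ s a) (hb : 11 ≤ s b)
    (e : ℕ) (he : 1 ≤ e) :
    ∃ (V A : Type) (_ : Fintype V) (_ : Fintype A) (G : SimpleGraph V) (ty : A → Fin k)
      (σ : A ↪ V), G.IsTree ∧ (∀ c, Nat.card {i : A // ty i = c} = s c) ∧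
        Fintype.card V = Fintype.card A + e ∧
        ∀ τ : A ↪ V, Relation.ReflTransGen (ImprovingJump G ty) σ τ → ¬ IsEquilibrium G ty τ := by
  classical
  let base : Fin k → ℕ := fun c => if c = a then 8 else if c = b then 11 else 0
  have hbase : ∀ c, base c ≤ s c := by
    intro c
    simp only [base]
    split_ifs with h1 h2
    · rw [h1]; exact ha
    · rw [h2]; exact hb
    · exact Nat.zero_le _
  let X : Type := Σ c : Fin k, Fin (s c - base c)
  let tx : X → Fin k := Sigma.fst
  let E : Type := Fin (e - 1)
  refine ⟨Fin 20 ⊕ (X ⊕ E), Fin 19 ⊕ X, inferInstance, inferInstance, bigTree X E a tx,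
    tyA a b tx, start X E, bigTree_isTree a tx, ?_, ?_, ?_⟩
  · intro c
    have e1 : {i : Fin 19 ⊕ X // tyA a b tx i = c} ≃
        {i : Fin 19 // lift a b (ty i) = c} ⊕ {x : X // tx x = c} :=
      Equiv.subtypeSum
    have e2 : {x : X // tx x = c} ≃ Fin (s c - base c) :=
      { toFun := fun x => x.2 ▸ x.1.2
        invFun := fun i => ⟨⟨c, i⟩, rfl⟩
        left_inv := by
          rintro ⟨⟨d, i⟩, hd⟩
          change d = c at hd
          subst hd
          rfl
        right_inv := fun i => rfl }
    have e3 : Nat.card {i : Fin 19 // lift a b (ty i) = c} = base c := by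
      rw [Nat.card_eq_fintype_card, Fintype.card_subtype]
      simp only [base]
      split_ifs with h1 h2
      · have : ∀ i : Fin 19, lift a b (ty i) = c ↔ ty i = 0 := by
          intro i
          rw [h1]
          exact lift_inj a b hab (ty i) 0
        simp only [this]
        decide
      · have : ∀ i : Fin 19, lift a b (ty i) = c ↔ ty i = 1 := by
          intro i
          rw [h2]
          exact lift_inj a b hab (ty i) 1
        simp only [this]
        decide
      · rw [Finset.card_eq_zero, Finset.filter_eq_empty_iff]
        intro i _ hi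
        unfold lift at hi
        split_ifs at hi
        · exact h1 hi.symm
        · exact h2 hi.symm
    rw [Nat.card_congr e1, Nat.card_sum, Nat.card_congr e2, e3, Nat.card_eq_fintype_card,
      Fintype.card_fin]
    have := hbase c
    omega
  · simp only [Fintype.card_sum, Fintype.card_fin, E]
    omega
  · intro τ hτ
    have : ∃ s, Realises (tyA a b tx) τ (bigPat X E a b tx s) := by
      induction hτ with
      | refl => exact ⟨0, start_realises a b tx⟩
      | tail _ hj ih =>
        obtain ⟨s, hs⟩ := ih
        exact ⟨s + 1, step_big a b tx hab hs hj⟩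
    obtain ⟨s, hs⟩ := this
    exact not_eq_big a b tx hab hs

end Pool.Agent.Results.MP_39759c_lc.AllTypeSizes
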